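import Pool.Agent.Helper54.PT.DefsG
import Pool.Agent.Helper66.TE.B10
import Pool.Agent.Helper63.TW.C21ab
import Pool.Agent.Helper19.TW.C5b

/-!
# Modules G0 and G1: the set of bad primes and the classes at the bad places
-/

set_option autoImplicit false

namespace Pool.Agent.Helper54.PT

open Polynomial Finset Filter Topology Module Pool.Agent.Helper47.BSD

variable {F : Type} [Field F] [Finite F] {ℓ : ℕ} [Fact ℓ.Prime] {ι : Type} [Fintype ι]
  [DecidableEq ι] {σ : Type} [Fintype σ] [DecidableEq σ] {a : ι → ℕ} {e : ι → F[X]}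
  {R : σ → Prm F} {lg : F → ZMod ℓ}

/-- G0: the set of bad primes -/
theorem exists_setupG (he : ∀ i j, i ≠ j → e i ≠ e j) : ∃ (σ : Type) (_ : Fintype σ)
    (_ : DecidableEq σ) (R : σ → Prm F), SetupG R e := by
  classical
  have hfin : Finite {P : Prm F // ∃ i j, i ≠ j ∧ P.1 ∣ e i - e j} := by
    have h1 : ∀ i j, i ≠ j → {P : Prm F | P.1 ∣ e i - e j}.Finite := by
      intro i j hij
      exact Set.finite_coe_iff.1 (te_b10_finite (F := F) (f := e i - e j)
        (sub_ne_zero.2 (he i j hij)))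
    have h2 : {P : Prm F | ∃ i j, i ≠ j ∧ P.1 ∣ e i - e j}.Finite := by
      have h3 : {P : Prm F | ∃ i j, i ≠ j ∧ P.1 ∣ e i - e j} =
          ⋃ (i : ι), ⋃ (j : ι), {P : Prm F | i ≠ j ∧ P.1 ∣ e i - e j} := by
        ext P
        simp only [Set.mem_iUnion]
        exact Iff.rfl
      rw [h3]
      refine Set.finite_iUnion fun i => Set.finite_iUnion fun j => ?_
      by_cases hij : i = j
      · refine Set.Finite.subset Set.finite_empty fun P hP => ?_
        exact absurd hij hP.1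
      · exact (h1 i j hij).subset fun P hP => hP.2
    exact h2.to_subtype
  let hft : Fintype {P : Prm F // ∃ i j, i ≠ j ∧ P.1 ∣ e i - e j} := Fintype.ofFinite _
  refine ⟨{P : Prm F // ∃ i j, i ≠ j ∧ P.1 ∣ e i - e j}, hft, inferInstance,
    fun P => P.1, ?_⟩
  exact
    { inj := Subtype.val_injective
      ne := he
      mem := fun P => ⟨fun ⟨r, hr⟩ => hr ▸ r.2, fun h => ⟨⟨P, h⟩, rfl⟩⟩ }

/-- G1: the classes at the bad places -/
theorem clsT_eq (hlg : IsLog ℓ lg) (hinj : Function.Injective R) (D : Finset (Prm F))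
    (hD : ∀ P ∈ D, ∀ r, P ≠ R r) {x : RatFunc F} (hx0 : x ≠ 0)
    (hx : ∀ Q : Prm F, Q ∉ D → (∀ r, Q ≠ R r) → (ordK Q x : ZMod ℓ) = 0) (t : Option σ) :
    (clsT R lg x t).2 = zlG (fun r => ((R r).1.natDegree : ZMod ℓ))
      (fun r r' => sy lg (R r).1 (R r').1) (fun s => (clsT R lg x s).1)
      (fun s => match s with
        | some r => ∑ P ∈ D, (ordK P x : ZMod ℓ) * sy lg (R r).1 P.1
        | none => ∑ P ∈ D, (P.1.natDegree : ZMod ℓ) * (ordK P x : ZMod ℓ)) t := by
  have _ := hlg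
  cases t with
  | none =>
    show ((x.intDegree : ℤ) : ZMod ℓ) =
      ∑ r : σ, ((R r).1.natDegree : ZMod ℓ) * (ordK (R r) x : ZMod ℓ) +
      ∑ P ∈ D, (P.1.natDegree : ZMod ℓ) * (ordK P x : ZMod ℓ)
    exact C21ab.deg_eq hinj D hD x hx (ordK_finite hx0) (intDegree_eq hx0)
  | some r =>
    show rsK lg (R r) x = ∑ r' ∈ univ.erase r, (ordK (R r') x : ZMod ℓ) *
      sy lg (R r).1 (R r').1 + lg (lcK x) * ((R r).1.natDegree : ZMod ℓ) +
      ∑ P ∈ D, (ordK P x : ZMod ℓ) * sy lg (R r).1 P.1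
    rw [C21ab.rsK_eq hinj lg D hD x hx (R r), erase_eq_of_notMem fun h => hD _ h r rfl]
    have h1 : ∑ r' : σ, (if R r' = R r then 0 else (ordK (R r') x : ZMod ℓ) *
        sy lg (R r).1 (R r').1) = ∑ r' ∈ univ.erase r, (ordK (R r') x : ZMod ℓ) *
          sy lg (R r).1 (R r').1 := by
      rw [← sum_erase (a := r) _ (by simp)]
      refine sum_congr rfl fun r' hr' => ?_
      rw [if_neg fun h => ne_of_mem_erase hr' (hinj h)]
    rw [h1]
    ring

end Pool.Agent.Helper54.PT
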