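import Pool.Agent.Helper42.TG.G01
import Pool.Agent.Helper34.TG.G3
import Pool.Agent.Helper11.TG.G2

/-!
# Module G8: the class of a Selmer element lies in the formal Selmer group
-/

set_option autoImplicit false
set_option linter.unusedSectionVars false

namespace Pool.Agent.Helper54.PT

open Polynomial Finset Filter Topology Module Pool.Agent.Helper47.BSD

variable {F : Type} [Field F] [Finite F] {ℓ : ℕ} [Fact ℓ.Prime] {ι : Type} [Fintype ι]
  [DecidableEq ι] {σ : Type} [Fintype σ] [DecidableEq σ] {a : ι → ℕ} {e : ι → F[X]}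
  {R : σ → Prm F} {lg : F → ZMod ℓ}

namespace G8

/-- the product of the primes of `D` has class `(0, kap)` at the bad places -/
theorem cls_prod (hlg : IsLog ℓ lg)
    (hrec : ∀ P Q : Prm F, P ≠ Q → sy lg Q.1 P.1 = sy lg P.1 Q.1)
    (D : Finset (pd lg hrec R).P) (t : Option σ) :
    clsT R lg (algebraMap F[X] (RatFunc F) (∏ P ∈ und lg hrec R D, P.1)) t =
      (0, kap (pd lg hrec R) D t) := by
  classical
  have hne : ∀ P ∈ und lg hrec R D, ∀ r, P ≠ R r := C21_und_ne hrec D
  have hmon : (∏ P ∈ und lg hrec R D, P.1).Monic := monic_prod_of_monic _ _ fun P _ => P.2.1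
  cases t with
  | none =>
    show (lg (lcK (algebraMap F[X] (RatFunc F) (∏ P ∈ und lg hrec R D, P.1))),
      (((algebraMap F[X] (RatFunc F) (∏ P ∈ und lg hrec R D, P.1)).intDegree : ℤ) : ZMod ℓ)) = _
    have h1 : lg 1 = 0 := by
      have h := hlg.1 1 1 one_ne_zero one_ne_zero
      rw [mul_one] at h
      exact add_eq_left.1 h.symm
    have h2 : (((∏ P ∈ und lg hrec R D, P.1).natDegree : ℕ) : ZMod ℓ) =
        kap (pd lg hrec R) D none := by
      rw [natDegree_prod_of_monic _ _ fun P _ => P.2.1, Nat.cast_sum,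
        C21_sum_und hrec D fun P => (P.1.natDegree : ZMod ℓ)]
      exact sum_coe_sort D (fun p => ((pd lg hrec R).xx p none))
    rw [lcK_poly, hmon.leadingCoeff, h1, RatFunc.intDegree_polynomial, ← h2, Int.cast_natCast]
  | some r =>
    show ((ordK (R r) (algebraMap F[X] (RatFunc F) (∏ P ∈ und lg hrec R D, P.1)) : ZMod ℓ),
      rsK lg (R r) (algebraMap F[X] (RatFunc F) (∏ P ∈ und lg hrec R D, P.1))) = _
    have h0 : ∀ P ∈ und lg hrec R D, ¬ (R r).1 ∣ P.1 := by
      intro P hP h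
      exact hne P hP r (c16_eq_of_dvd h).symm
    have h1 : ¬ (R r).1 ∣ ∏ P ∈ und lg hrec R D, P.1 := by
      intro h
      obtain ⟨P, hP, h2⟩ := (R r).2.2.prime.exists_mem_finset_dvd h
      exact h0 P hP h2
    have h2 : sy lg (R r).1 (∏ P ∈ und lg hrec R D, P.1) = kap (pd lg hrec R) D (some r) := by
      rw [sy_prod hlg (R r).2.1 (R r).2.2 _ _ h0, C21_sum_und hrec D fun P => sy lg (R r).1 P.1]
      unfold kap
      rw [← sum_coe_sort D fun p => ((pd lg hrec R).xx p (some r))]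
      refine sum_congr rfl fun p _ => ?_
      show _ = sy lg p.1.1.1 (R r).1
      rw [hrec p.1.1 (R r) (p.1.2 r)]
    rw [ordK_poly _ hmon.ne_zero, multiplicity_eq_zero.2 h1, rsK_poly hlg _ h1, h2]
    simp

/-- the residue symbol of a difference at a good prime -/
theorem rsK_diff (hrec : ∀ P Q : Prm F, P ≠ Q → sy lg Q.1 P.1 = sy lg P.1 Q.1)
    (hS : SetupG R e) (p : (pd lg hrec R).P) {m j : ι} (hmj : m ≠ j) :
    ∑ s, AG R lg e m j s * (pd lg hrec R).xx p s =
      rsK lg p.1 (algebraMap F[X] (RatFunc F) (e m - e j)) := by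
  have h0 : e m - e j ≠ 0 := sub_ne_zero.2 (hS.ne m j hmj)
  have h1 := C21ab.rsK_eq hS.inj lg (∅ : Finset (Prm F))
    (fun P hP => absurd hP (notMem_empty P)) (algebraMap F[X] (RatFunc F) (e m - e j))
    (fun Q _ hQ => by
      have h2 : ¬ Q.1 ∣ e m - e j := by
        intro h
        obtain ⟨r, hr⟩ := (hS.mem Q).2 ⟨m, j, hmj, h⟩
        exact hQ r hr.symm
      rw [ordK_poly Q h0, multiplicity_eq_zero.2 h2]
      simp) p.1
  rw [h1, Fintype.sum_option]
  have h3 : ∑ r : σ, (if R r = p.1 then 0 else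
      (ordK (R r) (algebraMap F[X] (RatFunc F) (e m - e j)) : ZMod ℓ) * sy lg p.1.1 (R r).1) =
      ∑ r : σ, AG R lg e m j (some r) * (pd lg hrec R).xx p (some r) :=
    sum_congr rfl fun r _ => if_neg fun h => p.2 r h.symm
  rw [h3, show (∅ : Finset (Prm F)).erase p.1 = ∅ from erase_empty _, sum_empty]
  show lg (lcK (algebraMap F[X] (RatFunc F) (e m - e j))) * (p.1.1.natDegree : ZMod ℓ) + _ = _
  ring

end G8

open G8 in
/-- G8: the class of a Selmer element lies in the formal Selmer group (uses G1, G2, G3) -/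
theorem selG_mem_GD (hq : ℓ ∣ Nat.card F - 1) (hlg : IsLog ℓ lg) (hm : lg (-1) = 0)
    (hrec : ∀ P Q : Prm F, P ≠ Q → sy lg Q.1 P.1 = sy lg P.1 Q.1)
    (ha : ∀ i, ¬ ℓ ∣ a i) (hs : ¬ ℓ ∣ ∑ i, a i) (hS : SetupG R e) (i₀ : ι)
    (M : Option σ → ZMod ℓ → Submodule (ZMod ℓ) (LSG ℓ i₀)) (hM : SelM R lg a e i₀ M)
    (D : Finset (pd lg hrec R).P) (d : ι → (RatFunc F)ˣ)
    (hd : d ∈ selmerSet ℓ a (tw e (und lg hrec R D))) :
    (bcl lg R i₀ d, vcl lg hrec R i₀ D d) ∈ GD (pd lg hrec R) (tauG a i₀ (AG R lg e))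
      (HMG i₀ (fun r => ((R r).1.natDegree : ZMod ℓ)) (fun r r' => sy lg (R r).1 (R r').1) M)
      D := by
  have hDne : ∀ P ∈ und lg hrec R D, ∀ r, P ≠ R r := C21_und_ne hrec D
  have c15 : (∀ Q : Prm F, ∑ i, (a i : ZMod ℓ) * (ordK Q (d i) : ZMod ℓ) = 0) ∧
      ∑ i, (a i : ZMod ℓ) * lg (lcK (d i : RatFunc F)) = 0 :=
    selmer_rel_aux (fun hd => prod_pow_of_mem hd) (fun Q _ _ hx hy => ordK_mul Q hx hy)
      (fun hx => lcK_ne_zero hx) (fun hx hy => lcK_mul hx hy) exists_absP (exists_absInf F)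
      (fun P v hv _ hx h => class_of_pow_absP hlg P v hv hx h)
      (fun v hv _ hx h => class_of_pow_absInf hlg v hv hx h) hlg _ d hd
  have c16 : ∀ (j : ι) (Q : Prm F), Q ∉ und lg hrec R D → (∀ r, Q ≠ R r) →
      (ordK Q (d j : RatFunc F) : ZMod ℓ) = 0 :=
    fun j Q h1 h2 => selmer_goodG hq ha hs hS _ d hd Q h1 h2 j
  have ev : ∀ p : D, ext a i₀ (vcl lg hrec R i₀ D d p)
      = fun m => (ordK p.1.1 (d m : RatFunc F) : ZMod ℓ) :=
    fun p => C11_ext a i₀ (ha i₀) _ (c15.1 p.1.1) _ fun j => rfl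
  classical
  simp only [GD, mem_filter, mem_univ, true_and]
  refine ⟨fun t => ?_, fun p j => ?_⟩
  · -- the bad places
    have hD0 : algebraMap F[X] (RatFunc F) (∏ P ∈ und lg hrec R D, P.1) ≠ 0 :=
      RatFunc.algebraMap_ne_zero (monic_prod_of_monic _ _ fun P _ => P.2.1).ne_zero
    have htw : tw e (und lg hrec R D) = fun i =>
        algebraMap F[X] (RatFunc F) (∏ P ∈ und lg hrec R D, P.1) *
          algebraMap F[X] (RatFunc F) (e i) := by
      funext i
      rw [tw, map_mul]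
    have h1 := hM t (kap (pd lg hrec R) D t) _ hD0 (cls_prod hlg hrec D t) d (by
      rw [← htw]; exact hd)
    have h2 : mkG i₀ (fun i => clsT R lg (d i : RatFunc F) t) =
        ((fun j => bcl lg R i₀ d t j, fun j => zlG (fun r => ((R r).1.natDegree : ZMod ℓ))
          (fun r r' => sy lg (R r).1 (R r').1) (fun s => bcl lg R i₀ d s j)
          (fun s => ysum (pd lg hrec R) (vcl lg hrec R i₀ D d) s j) t) : LSG ℓ i₀) := by
      refine Prod.ext (funext fun j => ?_) (funext fun j => ?_)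
      · cases t <;> rfl
      · have h3 := clsT_eq hlg hS.inj (und lg hrec R D) hDne (d j.1).ne_zero (c16 j.1) t
        have h4 : (fun s => (clsT R lg (d j.1 : RatFunc F) s).1) =
            fun s => bcl lg R i₀ d s j := by
          funext s
          cases s <;> rfl
        rw [h4] at h3
        show (clsT R lg (d j.1 : RatFunc F) t).2 = zlG (fun r => ((R r).1.natDegree : ZMod ℓ))
          (fun r r' => sy lg (R r).1 (R r').1) (fun s => bcl lg R i₀ d s j)
          (fun s => ysum (pd lg hrec R) (vcl lg hrec R i₀ D d) s j) t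
        refine h3.trans (congrArg (fun y => zlG (fun r => ((R r).1.natDegree : ZMod ℓ))
          (fun r r' => sy lg (R r).1 (R r').1) (fun s => bcl lg R i₀ d s j) y t)
          (funext fun s => ?_))
        cases s with
        | none =>
          exact C21_sum_und hrec D fun P => (P.1.natDegree : ZMod ℓ) *
            (ordK P (d j.1 : RatFunc F) : ZMod ℓ)
        | some r =>
          refine (C21_sum_und hrec D fun P => (ordK P (d j.1 : RatFunc F) : ZMod ℓ) *
            sy lg (R r).1 P.1).trans ?_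
          refine sum_congr rfl fun p _ => ?_
          show (ordK p.1.1 (d j.1 : RatFunc F) : ZMod ℓ) * sy lg (R r).1 p.1.1.1
            = sy lg p.1.1.1 (R r).1 * (ordK p.1.1 (d j.1 : RatFunc F) : ZMod ℓ)
          rw [hrec p.1.1 (R r) (p.1.2 r)]
          ring
    rw [h2] at h1
    exact h1
  · -- the primes of `D`
    have h1 := selmer_ramG hq hlg hm ha hs hS _ hDne d hd p.1.1 (C21_mem_und hrec D p) j.1
    rw [C21ab.rsK_eq hS.inj lg _ hDne _ (c16 j.1) p.1.1, C21_sum_erase hrec D p,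
      C21_sum_erase hrec D p] at h1
    have h2 : ∑ r : σ, (if R r = p.1.1 then 0 else (ordK (R r) (d j.1 : RatFunc F) : ZMod ℓ) *
        sy lg p.1.1.1 (R r).1) = ∑ r : σ, bcl lg R i₀ d (some r) j *
          (pd lg hrec R).xx p.1 (some r) :=
      sum_congr rfl fun r _ => if_neg fun h => p.1.2 r h.symm
    have h3 : ∑ s, tauG a i₀ (AG R lg e) (vcl lg hrec R i₀ D d p) j s *
        (pd lg hrec R).xx p.1 s = ∑ m, (a m : ZMod ℓ) * (asum ℓ a)⁻¹ *
        ((ordK p.1.1 (d j.1 : RatFunc F) : ZMod ℓ) - (ordK p.1.1 (d m : RatFunc F) : ZMod ℓ)) *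
          rsK lg p.1.1 (algebraMap F[X] (RatFunc F) (e m - e j.1)) := by
      have h5 : ∀ s, tauG a i₀ (AG R lg e) (vcl lg hrec R i₀ D d p) j s *
          (pd lg hrec R).xx p.1 s = ∑ m, (a m : ZMod ℓ) * (asum ℓ a)⁻¹ *
          ((ordK p.1.1 (d j.1 : RatFunc F) : ZMod ℓ) -
            (ordK p.1.1 (d m : RatFunc F) : ZMod ℓ)) *
              (AG R lg e m j.1 s * (pd lg hrec R).xx p.1 s) := by
        intro s
        show (∑ m, (a m : ZMod ℓ) * (asum ℓ a)⁻¹ * (ext a i₀ (vcl lg hrec R i₀ D d p) j.1 -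
          ext a i₀ (vcl lg hrec R i₀ D d p) m) * AG R lg e m j.1 s) *
            (pd lg hrec R).xx p.1 s = _
        rw [ev p, sum_mul]
        exact sum_congr rfl fun m _ => by ring
      rw [sum_congr rfl fun s _ => h5 s, sum_comm]
      refine sum_congr rfl fun m _ => ?_
      rw [← mul_sum]
      by_cases hmj : m = j.1
      · rw [hmj]; ring
      · rw [rsK_diff hrec hS p.1 hmj]
    have h4 : ∑ p' : D, (if p' = p then 0 else (vcl lg hrec R i₀ D d p' j -
        vcl lg hrec R i₀ D d p j) * (pd lg hrec R).sym p'.1 p.1)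
        = ∑ p' : D, (if p' = p then 0 else (ordK p'.1.1 (d j.1 : RatFunc F) : ZMod ℓ) *
          sy lg p.1.1.1 p'.1.1.1) - (ordK p.1.1 (d j.1 : RatFunc F) : ZMod ℓ) *
          ∑ p' : D, (if p' = p then 0 else sy lg p.1.1.1 p'.1.1.1) := by
      rw [mul_sum, ← sum_sub_distrib]
      refine sum_congr rfl fun p' _ => ?_
      by_cases h : p' = p
      · rw [if_pos h, if_pos h, if_pos h]; ring
      · rw [if_neg h, if_neg h, if_neg h]
        show ((ordK p'.1.1 (d j.1 : RatFunc F) : ZMod ℓ) - (ordK p.1.1 (d j.1 : RatFunc F) :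
          ZMod ℓ)) * sy lg p.1.1.1 p'.1.1.1 = _
        ring
    unfold pcond
    rw [h3, Fintype.sum_option]
    show lg (lcK (d j.1 : RatFunc F)) * (p.1.1.1.natDegree : ZMod ℓ) +
      ∑ r : σ, bcl lg R i₀ d (some r) j * (pd lg hrec R).xx p.1 (some r) +
      ∑ p' : D, (if p' = p then 0 else (vcl lg hrec R i₀ D d p' j -
        vcl lg hrec R i₀ D d p j) * (pd lg hrec R).sym p'.1 p.1) - _ = 0
    rw [h4, ← h2]
    linear_combination h1

end Pool.Agent.Helper54.PT
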