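import Pool.Agent.Helper92.TW.C8
import Pool.Agent.Helper99.TW.C9
import Pool.Agent.Helper57.TW.C1
import Pool.Agent.Helper54.PT.DefsG

/-!
# Modules K2 and K4: powers in the completion at infinity, elements with given classes
-/

set_option autoImplicit false

namespace Pool.Agent.Helper54.PT

open Polynomial Finset Filter Topology Module Pool.Agent.Helper47.BSD

variable {F : Type} [Field F] [Finite F] {ℓ : ℕ} [Fact ℓ.Prime] {lg : F → ZMod ℓ}

namespace K24

omit [Finite F] in
/-- elements of degree `0` with leading coefficient `1` are close to `1` at infinity -/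
theorem near (v : AbsoluteValue (RatFunc F) ℝ) (hv : IsAbsInf v) {w : RatFunc F} (hw : w ≠ 0)
    (h1 : w.intDegree = 0) (h2 : lcK w = 1) : v (w - 1) < 1 := by
  rcases eq_or_ne (w - 1) 0 with h0 | h0
  · rw [h0, map_zero]; exact one_pos
  have hd0 : w.denom ≠ 0 := RatFunc.denom_ne_zero w
  have hn0 : w.num ≠ 0 := RatFunc.num_ne_zero hw
  have hda : algebraMap F[X] (RatFunc F) w.denom ≠ 0 := RatFunc.algebraMap_ne_zero hd0
  have hwd : algebraMap F[X] (RatFunc F) w.num = w * algebraMap F[X] (RatFunc F) w.denom := by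
    have h3 := RatFunc.num_div_denom w
    nth_rw 2 [← h3]
    rw [div_mul_cancel₀ _ hda]
  have h3 : algebraMap F[X] (RatFunc F) (w.num - w.denom) =
      (w - 1) * algebraMap F[X] (RatFunc F) w.denom := by
    rw [map_sub, hwd]; ring
  have h4 : w.num - w.denom ≠ 0 := by
    intro h5
    rw [h5, map_zero] at h3
    exact mul_ne_zero h0 hda h3.symm
  have hdeg : w.num.natDegree = w.denom.natDegree := by
    have h5 := h1
    unfold RatFunc.intDegree at h5
    omega
  have hlc : w.num.leadingCoeff = w.denom.leadingCoeff := by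
    have h5 : w.denom.leadingCoeff = 1 := RatFunc.monic_denom w
    rw [h5]
    exact h2
  have hlt : (w.num - w.denom).natDegree < w.denom.natDegree := by
    have h5 : (w.num - w.denom).degree < w.num.degree :=
      degree_sub_lt_left (by
        rw [degree_eq_natDegree hn0, degree_eq_natDegree hd0, hdeg]) hn0 hlc
    rw [← hdeg]
    exact natDegree_lt_natDegree h4 h5
  have h5 := RatFunc.intDegree_mul h0 hda
  rw [← h3, RatFunc.intDegree_polynomial, RatFunc.intDegree_polynomial] at h5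
  rw [hv _ h0]
  exact zpow_lt_one_of_neg₀ one_lt_two (by omega)

omit [Finite F] in
theorem lcK_npow {x : RatFunc F} (hx : x ≠ 0) (n : ℕ) :
    (x ^ n).intDegree = n * x.intDegree ∧ lcK (x ^ n) = lcK x ^ n := by
  induction n with
  | zero =>
    refine ⟨by simp, ?_⟩
    have h1 := lcK_poly (1 : F[X])
    rw [map_one, leadingCoeff_one] at h1
    rw [pow_zero, pow_zero, h1]
  | succ n ih =>
    rw [pow_succ, RatFunc.intDegree_mul (pow_ne_zero _ hx) hx,
      lcK_mul (pow_ne_zero _ hx) hx, ih.1, ih.2, pow_succ]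
    refine ⟨?_, rfl⟩
    push_cast
    ring

omit [Finite F] in
/-- monomials with given degree and leading coefficient -/
theorem mono (c : F) (hc : c ≠ 0) (m : ℤ) :
    ∃ z : RatFunc F, z ≠ 0 ∧ z.intDegree = m ∧ lcK z = c := by
  obtain ⟨m₁, m₂, rfl⟩ : ∃ m₁ m₂ : ℕ, m = m₁ - m₂ := by
    rcases Int.eq_nat_or_neg m with ⟨n, rfl | rfl⟩
    · exact ⟨n, 0, by simp⟩
    · exact ⟨0, n, by simp⟩
  have hA : (C c * X ^ m₁ : F[X]) ≠ 0 :=
    mul_ne_zero (C_ne_zero.2 hc) (pow_ne_zero _ X_ne_zero)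
  have hB : (X ^ m₂ : F[X]) ≠ 0 := pow_ne_zero _ X_ne_zero
  have hA' : algebraMap F[X] (RatFunc F) (C c * X ^ m₁) ≠ 0 := RatFunc.algebraMap_ne_zero hA
  have hB' : algebraMap F[X] (RatFunc F) (X ^ m₂) ≠ 0 := RatFunc.algebraMap_ne_zero hB
  refine ⟨algebraMap F[X] (RatFunc F) (C c * X ^ m₁) / algebraMap F[X] (RatFunc F) (X ^ m₂),
    div_ne_zero hA' hB', ?_, ?_⟩
  · rw [RatFunc.intDegree_div hA' hB', RatFunc.intDegree_polynomial,
      RatFunc.intDegree_polynomial, natDegree_X_pow, natDegree_C_mul_X_pow _ _ hc]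
  · have h1 := lcK_mul (div_ne_zero hA' hB') hB'
    rw [div_mul_cancel₀ _ hB', lcK_poly, lcK_poly, leadingCoeff_X_pow, mul_one,
      leadingCoeff_C_mul_X_pow] at h1
    exact h1.symm

omit [Finite F] in
theorem lg_one (hlg : IsLog ℓ lg) : lg 1 = 0 := by
  have h := hlg.1 1 1 one_ne_zero one_ne_zero
  rw [mul_one] at h
  exact add_eq_left.1 h.symm

end K24

open K24 in
/-- K2: powers in the completion at infinity -/
theorem pow_of_class_absInf (hq : ℓ ∣ Nat.card F - 1) (hlg : IsLog ℓ lg)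
    (v : AbsoluteValue (RatFunc F) ℝ) (hvn : v.IsNontrivial) (hv : IsAbsInf v) {x : RatFunc F}
    (hx : x ≠ 0) (h1 : (ℓ : ℤ) ∣ x.intDegree) (h2 : lg (lcK x) = 0) :
    ∃ y : v.Completion, algebraMap (RatFunc F) v.Completion x = y ^ ℓ := by
  have _ := hvn
  have hℓ : 0 < ℓ := (Fact.out : ℓ.Prime).pos
  obtain ⟨p, hp⟩ := CharP.exists F
  have := hp
  have : CharP (RatFunc F) p := charP_of_injective_algebraMap (algebraMap F (RatFunc F)).injective p
  have hpp : p.Prime := CharP.char_is_prime F p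
  have := ultra_completion v p hpp
  have hk := lf_absInf hq v hv
  obtain ⟨c, hc⟩ := (hlg.2.1 _ (lcK_ne_zero hx)).1 h2
  have hc0 : c ≠ 0 := by
    rintro rfl
    rw [zero_pow hℓ.ne'] at hc
    exact lcK_ne_zero hx hc.symm
  obtain ⟨m, hm⟩ := h1
  obtain ⟨z, hz0, hzd, hzc⟩ := mono c hc0 m
  have hzl : z ^ ℓ ≠ 0 := pow_ne_zero _ hz0
  set w : RatFunc F := x / z ^ ℓ with hw
  have hw0 : w ≠ 0 := div_ne_zero hx hzl
  have hwx : x = w * z ^ ℓ := by rw [hw, div_mul_cancel₀ _ hzl]
  have hwd : w.intDegree = 0 := by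
    rw [hw, RatFunc.intDegree_div hx hzl, (lcK_npow hz0 ℓ).1, hzd, hm, sub_self]
  have hwc : lcK w = 1 := by
    have h3 := lcK_mul hw0 hzl
    rw [← hwx, (lcK_npow hz0 ℓ).2, hzc, hc] at h3
    exact (mul_eq_right₀ (lcK_ne_zero hx)).1 h3.symm
  have hnear := near v hv hw0 hwd hwc
  obtain ⟨y, hy, -⟩ := exists_pow_near_one hℓ hk.norm_ell
    (algebraMap (RatFunc F) v.Completion w) (by
      rw [← map_one (algebraMap (RatFunc F) v.Completion), ← map_sub,
        Helper47.BSD.norm_algebraMap]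
      exact hnear)
  refine ⟨y * algebraMap (RatFunc F) v.Completion z, ?_⟩
  rw [mul_pow, hy, ← map_pow, ← map_mul, ← hwx]

open K24 in
/-- K4: elements with given classes -/
theorem exists_class (hlg : IsLog ℓ lg) {σ : Type} (R : σ → Prm F) (t : Option σ) (c : ZMod ℓ) :
    ∃ D : RatFunc F, D ≠ 0 ∧ clsT R lg D t = (0, c) := by
  cases t with
  | none =>
    refine ⟨algebraMap F[X] (RatFunc F) (X ^ c.val),
      RatFunc.algebraMap_ne_zero (pow_ne_zero _ X_ne_zero), ?_⟩
    show (lg (lcK (algebraMap F[X] (RatFunc F) (X ^ c.val))),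
      (((algebraMap F[X] (RatFunc F) (X ^ c.val)).intDegree : ℤ) : ZMod ℓ)) = (0, c)
    rw [lcK_poly, leadingCoeff_X_pow, lg_one hlg, RatFunc.intDegree_polynomial, natDegree_X_pow]
    simp
  | some r =>
    have : Fact (Irreducible (R r).1) := ⟨(R r).2.2⟩
    have : FiniteDimensional F (AdjoinRoot (R r).1) :=
      (AdjoinRoot.powerBasis (R r).2.1.ne_zero).finite
    have : Finite (AdjoinRoot (R r).1) := Module.finite_of_finite F
    obtain ⟨x, hx0, hx⟩ := hlg.2.2 c
    obtain ⟨z, hz⟩ := FiniteField.norm_surjective F (AdjoinRoot (R r).1) x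
    obtain ⟨f, rfl⟩ := AdjoinRoot.mk_surjective z
    have hf : ¬ (R r).1 ∣ f := by
      intro h
      rw [AdjoinRoot.mk_eq_zero.2 h, Algebra.norm_zero] at hz
      exact hx0 hz.symm
    have hf0 : f ≠ 0 := by rintro rfl; exact hf (dvd_zero _)
    refine ⟨algebraMap F[X] (RatFunc F) f, RatFunc.algebraMap_ne_zero hf0, ?_⟩
    show ((ordK (R r) (algebraMap F[X] (RatFunc F) f) : ZMod ℓ),
      rsK lg (R r) (algebraMap F[X] (RatFunc F) f)) = (0, c)
    rw [ordK_poly _ hf0, multiplicity_eq_zero.2 hf, rsK_poly hlg _ hf, sy, nm, hz, hx]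
    simp

end Pool.Agent.Helper54.PT
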